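import Pool.Agent.H18.XZ.TA

/-!
# The exponential hierarchy in EQP: row EXM (exponential moments)
-/

set_option autoImplicit false

namespace Pool.Agent.H78.XZ

open Finset Pool.Agent.H70.OQ
open Pool.Agent.H66.AV (sg)

theorem exp_le_two (x : ℝ) (h0 : 0 ≤ x) (h1 : x ≤ 1) : Real.exp x ≤ 1 + 2 * x := by
  have h := convexOn_exp.2 (Set.mem_univ (0 : ℝ)) (Set.mem_univ (1 : ℝ))
    (show (0 : ℝ) ≤ 1 - x by linarith) h0 (by ring)
  simp only [smul_eq_mul, mul_zero, mul_one, zero_add, Real.exp_zero] at h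
  have h2 := Real.exp_one_lt_d9
  nlinarith

theorem pf_EXM : Pool.Agent.H18.XZ.T_EXM := by
  classical
  intro ι P _ _ _ _ L g η μ hL hg hη
  have key : ∀ ω : ι → Bool × P, Pool.Agent.H18.XZ.wt L ω * ic (μ ≤ ∑ i, g i (ω i).2) ≤
      Real.exp (-μ) * ∏ i, (if (ω i).2 ∈ L i then 1 / (2 * ((L i).card : ℝ)) else 0) *
        Real.exp (g i (ω i).2) := by
    intro ω
    rw [Finset.prod_mul_distrib, ← Real.exp_sum]
    have hw : 0 ≤ Pool.Agent.H18.XZ.wt L ω := by
      unfold Pool.Agent.H18.XZ.wt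
      refine Finset.prod_nonneg fun i _ => ?_
      split_ifs
      · positivity
      · exact le_rfl
    have hi : ic (μ ≤ ∑ i, g i (ω i).2) ≤ Real.exp (-μ) * Real.exp (∑ i, g i (ω i).2) := by
      rw [← Real.exp_add]
      unfold ic
      split_ifs with h
      · exact Real.one_le_exp (by linarith)
      · exact (Real.exp_pos _).le
    calc Pool.Agent.H18.XZ.wt L ω * ic (μ ≤ ∑ i, g i (ω i).2)
        ≤ Pool.Agent.H18.XZ.wt L ω * (Real.exp (-μ) * Real.exp (∑ i, g i (ω i).2)) :=
          mul_le_mul_of_nonneg_left hi hw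
      _ = _ := by unfold Pool.Agent.H18.XZ.wt; ring
  refine (Finset.sum_le_sum fun ω _ => key ω).trans ?_
  rw [← Finset.mul_sum]
  have e1 : ∑ ω : ι → Bool × P, ∏ i, (if (ω i).2 ∈ L i then 1 / (2 * ((L i).card : ℝ)) else 0) *
      Real.exp (g i (ω i).2) =
      ∏ i, ∑ x : Bool × P, (if x.2 ∈ L i then 1 / (2 * ((L i).card : ℝ)) else 0) *
        Real.exp (g i x.2) := by
    rw [Finset.prod_univ_sum, Fintype.piFinset_univ]
  rw [e1]
  have e2 : ∀ i, ∑ x : Bool × P, (if x.2 ∈ L i then 1 / (2 * ((L i).card : ℝ)) else 0) *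
      Real.exp (g i x.2) ≤ Real.exp (2 * η) := by
    intro i
    have hc : (0 : ℝ) < (L i).card := by exact_mod_cast Finset.card_pos.2 (hL i)
    have e3 : ∑ x : Bool × P, (if x.2 ∈ L i then 1 / (2 * ((L i).card : ℝ)) else 0) *
        Real.exp (g i x.2) = 1 / ((L i).card : ℝ) * ∑ u ∈ L i, Real.exp (g i u) := by
      rw [Fintype.sum_prod_type]
      simp only [Fintype.sum_bool]
      have e4 : ∑ x : P, (if x ∈ L i then 1 / (2 * ((L i).card : ℝ)) else 0) *
          Real.exp (g i x) = 1 / (2 * ((L i).card : ℝ)) * ∑ u ∈ L i, Real.exp (g i u) := by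
        rw [Finset.mul_sum, ← Finset.sum_filter_add_sum_filter_not univ (fun x => x ∈ L i)]
        rw [Finset.sum_congr (Finset.filter_mem_eq_inter.trans (Finset.univ_inter _))
          (g := fun x => 1 / (2 * ((L i).card : ℝ)) * Real.exp (g i x))]
        · rw [Finset.sum_eq_zero (s := univ.filter fun x => x ∉ L i), add_zero]
          intro x hx
          rw [if_neg (Finset.mem_filter.1 hx).2, zero_mul]
        · intro x hx
          rw [if_pos hx]
      rw [e4]
      field_simp
      ring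
    rw [e3]
    have e5 : ∑ u ∈ L i, Real.exp (g i u) ≤ (1 + 2 * η) * (L i).card := by
      calc ∑ u ∈ L i, Real.exp (g i u) ≤ ∑ u ∈ L i, (1 + 2 * g i u) :=
            Finset.sum_le_sum fun u _ => exp_le_two _ (hg i u).1 (hg i u).2
        _ = (L i).card + 2 * ∑ u ∈ L i, g i u := by
            rw [Finset.sum_add_distrib, Finset.sum_const, nsmul_eq_mul, mul_one, Finset.mul_sum]
        _ ≤ (L i).card + 2 * (η * (L i).card) := by linarith [hη i]
        _ = _ := by ring
    calc 1 / ((L i).card : ℝ) * ∑ u ∈ L i, Real.exp (g i u)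
        ≤ 1 / ((L i).card : ℝ) * ((1 + 2 * η) * (L i).card) :=
          mul_le_mul_of_nonneg_left e5 (by positivity)
      _ = 1 + 2 * η := by field_simp
      _ ≤ Real.exp (2 * η) := by linarith [Real.add_one_le_exp (2 * η)]
  have e6 : ∏ i, ∑ x : Bool × P, (if x.2 ∈ L i then 1 / (2 * ((L i).card : ℝ)) else 0) *
      Real.exp (g i x.2) ≤ ∏ _i : ι, Real.exp (2 * η) := by
    refine Finset.prod_le_prod (fun i _ => Finset.sum_nonneg fun x _ => ?_) fun i _ => e2 i
    refine mul_nonneg ?_ (Real.exp_pos _).le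
    split_ifs
    · positivity
    · exact le_rfl
  refine (mul_le_mul_of_nonneg_left e6 (Real.exp_pos _).le).trans ?_
  rw [Finset.prod_const, Finset.card_univ, ← Real.exp_nat_mul, ← Real.exp_add]
  refine Real.exp_le_exp.2 (le_of_eq ?_)
  ring

end Pool.Agent.H78.XZ
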