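import Pool.Agent.H18.XZ.TA

/-!
Board exz, row SMP: sampling one element of each group.
-/

set_option autoImplicit false

namespace Pool.Agent.H78.XZ

open Finset Pool.Agent.H18.XZ

/-- resampling one coordinate -/
theorem upd_sum {ι J : Type} [Fintype ι] [DecidableEq ι] [Fintype J] [DecidableEq J]
    (h : (ι → J) → ℝ) (t : ι) :
    (Fintype.card J : ℝ) * ∑ s, h s = ∑ s, ∑ j, h (Function.update s t j) := by
  let φ : (ι → J) × J → (ι → J) × J := fun x => (Function.update x.1 t x.2, x.1 t)
  have hinv : ∀ x, φ (φ x) = x := by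
    intro x
    simp [φ]
  have h1 : ∑ x : (ι → J) × J, h (Function.update x.1 t x.2) = ∑ x : (ι → J) × J, h x.1 := by
    refine Fintype.sum_equiv (⟨φ, φ, hinv, hinv⟩ : ((ι → J) × J) ≃ ((ι → J) × J)) _ _ ?_
    intro x
    rfl
  rw [Fintype.sum_prod_type, Fintype.sum_prod_type] at h1
  have h2 : ∑ s : ι → J, ∑ _j : J, h s = (Fintype.card J : ℝ) * ∑ s, h s := by
    rw [Finset.mul_sum]
    refine Finset.sum_congr rfl fun s _ => ?_
    rw [Finset.sum_const, Finset.card_univ, nsmul_eq_mul]
  rw [← h2]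
  exact h1.symm

theorem pf_SMP : T_SMP := by
  intro ι J _ _ _ _ _
  have hone : ∀ (f : J → ℝ) (t : ι), (Fintype.card J : ℝ) * ∑ s : ι → J, f (s t) =
      (Fintype.card J : ℝ) ^ Fintype.card ι * ∑ j, f j := by
    intro f t
    rw [upd_sum (fun s => f (s t)) t]
    simp only [Function.update_self]
    rw [Finset.sum_const, Finset.card_univ, nsmul_eq_mul, Fintype.card_fun]
    push_cast
    rfl
  refine ⟨?_, ?_⟩
  · intro g
    rw [Finset.sum_comm, Finset.mul_sum, Finset.mul_sum]
    exact Finset.sum_congr rfl fun t _ => hone (g t) t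
  · intro F
    have htwo : ∀ t t' : ι, t' ∈ univ.erase t → (Fintype.card J : ℝ) ^ 2 *
        ∑ s : ι → J, F t (s t) t' (s t') =
        (Fintype.card J : ℝ) ^ Fintype.card ι * ∑ j, ∑ j', F t j t' j' := by
      intro t t' ht'
      have hne : t' ≠ t := Finset.ne_of_mem_erase ht'
      rw [sq, mul_assoc, upd_sum (fun s => F t (s t) t' (s t')) t]
      simp only [Function.update_self, Function.update_of_ne hne]
      rw [hone (fun j' => ∑ j, F t j t' j') t', Finset.sum_comm]
    calc (Fintype.card J : ℝ) ^ 2 *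
          ∑ s : ι → J, ∑ t, ∑ t' ∈ univ.erase t, F t (s t) t' (s t')
        = ∑ t, ∑ t' ∈ univ.erase t, (Fintype.card J : ℝ) ^ 2 *
            ∑ s : ι → J, F t (s t) t' (s t') := by
          rw [Finset.sum_comm, Finset.mul_sum]
          refine Finset.sum_congr rfl fun t _ => ?_
          rw [Finset.sum_comm, Finset.mul_sum]
      _ = ∑ t, ∑ t' ∈ univ.erase t, (Fintype.card J : ℝ) ^ Fintype.card ι *
            ∑ j, ∑ j', F t j t' j' :=
          Finset.sum_congr rfl fun t _ => Finset.sum_congr rfl fun t' ht' => htwo t t' ht'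
      _ = _ := by
          rw [Finset.mul_sum]
          refine Finset.sum_congr rfl fun t _ => ?_
          rw [Finset.mul_sum]

end Pool.Agent.H78.XZ
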