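import Pool.Agent.H18.XZ.TC
import Pool.Agent.H66.IP.TC

/-!
# The exponential hierarchy in EQP: row WYD (weights which do not depend on the default oracle)
-/

set_option autoImplicit false

namespace Pool.Agent.H78.XZ

open Finset Pool.Agent.H6.NB Pool.Agent.H70.OQ Pool.Agent.H70.EH Pool.Agent.H70.EI Pool.Agent.H78.XQ
open Pool.Agent.H66.IP (Local ins sp dm IsZ scl mBp m0p)
open Pool.Agent.H66.IQ Pool.Agent.H66.AV
open Pool.Agent.H18.XX (Exa lx ax Cz wy)

theorem pf_WYD (hCTN : Pool.Agent.H18.XX.T_CTN) (hMSB : Pool.Agent.H66.IP.T_MSB) :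
    Pool.Agent.H18.XZ.T_WYD := by
  classical
  intro V E O s
  have h0 : ∀ (p : {a // a ∈ E}) (c : Cz V p.1), 0 ≤ m0p (lx V) p.1 c := fun p c =>
    (hMSB (lx V) p.1).1 c
  have h1 : ∀ p : {a // a ∈ E}, ∑ c : Cz V p.1, m0p (lx V) p.1 c = 1 := fun p =>
    (hMSB (lx V) p.1).2.1
  have h2 : ∀ (b : Bool) (p : {a // a ∈ E}) (c : Cz V p.1), 0 ≤ mBp (lx V) p.1 b c :=
    fun b p c => ((hMSB (lx V) p.1).2.2 b).1 c
  have h3 : ∀ (b : Bool) (p : {a // a ∈ E}), ∑ c : Cz V p.1, mBp (lx V) p.1 b c ≤ 1 :=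
    fun b p => ((hMSB (lx V) p.1).2.2 b).2.1
  let d : ∀ p : {a // a ∈ E}, Cz V p.1 → ℝ := fun p c =>
    if scl (lx V) p.1 ≤ s then mBp (lx V) p.1 true c + mBp (lx V) p.1 false c
    else m0p (lx V) p.1 c
  have hd0 : ∀ p c, 0 ≤ d p c := by
    intro p c
    simp only [d]
    split_ifs
    · exact add_nonneg (h2 true p c) (h2 false p c)
    · exact h0 p c
  have hds : ∀ p, ∑ c, d p c ≤ if scl (lx V) p.1 ≤ s then (2 : ℝ) else 1 := by
    intro p
    simp only [d]
    by_cases hp : scl (lx V) p.1 ≤ s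
    · simp only [if_pos hp]
      rw [Finset.sum_add_distrib]
      have a := h3 true p
      have b := h3 false p
      linarith
    · simp only [if_neg hp]
      exact (h1 p).le
  refine ⟨fun P => ∏ p, d p (P p), fun P => Finset.prod_nonneg fun p _ => hd0 p _, ?_, ?_⟩
  · have e1 : ∑ P : (∀ p : {a // a ∈ E}, Cz V p.1), ∏ p, d p (P p) = ∏ p, ∑ c, d p c := by
      rw [Finset.prod_univ_sum, Fintype.piFinset_univ]
    rw [e1]
    have e2 : ∏ p, ∑ c, d p c ≤ ∏ p : {a // a ∈ E}, if scl (lx V) p.1 ≤ s then (2 : ℝ) else 1 :=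
      Finset.prod_le_prod (fun p _ => Finset.sum_nonneg fun c _ => hd0 p c) fun p _ => hds p
    refine e2.trans ?_
    rw [← Finset.prod_filter, Finset.prod_const]
    have e3 : (univ.filter fun p : {a // a ∈ E} => scl (lx V) p.1 ≤ s).card ≤ 2 ^ s := by
      refine le_trans ?_ ((hCTN V E).1 s)
      refine Finset.card_le_card_of_injOn (fun p => p.1) ?_ ?_
      · intro p hp
        simp only [Finset.coe_filter, Finset.mem_univ, true_and, Set.mem_ofPred_eq] at hp ⊢
        exact ⟨p.2, hp⟩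
      · intro p _ q _ h
        exact Subtype.ext h
    exact pow_le_pow_right₀ (by norm_num) e3
  · intro g P
    unfold Pool.Agent.H18.XX.wy
    refine Finset.prod_le_prod (fun p _ => ?_) fun p _ => ?_
    · split_ifs
      · exact h2 _ p _
      · exact h0 p _
    · simp only [d]
      by_cases hp : scl (lx V) p.1 ≤ s
      · simp only [if_pos hp]
        cases ax V (O P g) p.1
        · have a := h2 true p (P p)
          linarith
        · have a := h2 false p (P p)
          linarith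
      · simp only [if_neg hp]
        exact le_rfl

end Pool.Agent.H78.XZ
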