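import Pool.Agent.H18.XZ.TD

/-!
# The exponential hierarchy in EQP: row CLP (the answers of the instances together with a formula)
-/

set_option autoImplicit false

namespace Pool.Agent.H78.XZ.CLP

open Finset Pool.Agent.H6.NB Pool.Agent.H70.OQ Pool.Agent.H70.EH Pool.Agent.H70.EI Pool.Agent.H78.XQ
open Pool.Agent.H66.IP (Local ins sp dm IsZ scl mBp m0p)
open Pool.Agent.H18.XX (Exa lx ax bd)

private theorem bd_ge (r : ℕ) (hr : 20 ≤ r) : 2 ^ (r + 1) ≤ bd r := by
  unfold Pool.Agent.H18.XX.bd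
  refine Nat.pow_le_pow_right (by norm_num) ?_
  have h1 : r ^ 2 - r = r * (r - 1) := by
    rw [pow_two, Nat.mul_sub, Nat.mul_one]
  rw [h1]
  have h2 : r * 1 ≤ r * (r - 1) := Nat.mul_le_mul_left _ (by omega)
  omega

open Classical in
theorem pf_CLP (hLCL : Pool.Agent.H70.EI.T_LCL) (hCNJ : Pool.Agent.H70.EI.T_CNJ)
    (hCLB : Pool.Agent.H6.NB.T_CLB) (hCTN : Pool.Agent.H18.XX.T_CTN) :
    Pool.Agent.H18.XZ.T_CLP := by
  intro X V E r O κ C hO hr hC
  have hb := bd_ge r hr
  have hb1 : 2 ^ r ≤ bd r := (Nat.pow_le_pow_right (by norm_num) (Nat.le_succ r)).trans hb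
  have hS1 : 1 ≤ bd r := Nat.one_le_two_pow.trans hb
  have hS : 2 ≤ 2 ^ bd r := by
    calc 2 = 2 ^ 1 := by norm_num
      _ ≤ 2 ^ bd r := Nat.pow_le_pow_right (by norm_num) hS1
  have mono := (hCLB X (2 ^ bd r) hS).2.1
  set J : Finset {a // a ∈ E} := univ.filter fun i => scl (lx V) i.1 ≤ r with hJ
  have hJc : J.card + 1 ≤ 2 ^ bd r := by
    have e1 : J.card ≤ (E.filter fun a => scl (lx V) a ≤ r).card := by
      refine Finset.card_le_card_of_injOn (fun i => i.1) (fun i hi => ?_)
        (fun i _ j _ hij => Subtype.ext hij)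
      exact Finset.mem_coe.2 (Finset.mem_filter.2 ⟨i.2, (Finset.mem_filter.1 hi).2⟩)
    have e2 := (hCTN V E).1 r
    have e3 : (2 : ℕ) ^ (r + 1) ≤ 2 ^ bd r := by
      refine Nat.pow_le_pow_right (by norm_num) ?_
      have : r + 1 < 2 ^ (r + 1) := Nat.lt_two_pow_self
      omega
    have e4 : (2 : ℕ) ^ (r + 1) = 2 ^ r + 2 ^ r := by ring
    have e5 : 1 ≤ 2 ^ r := Nat.one_le_two_pow
    omega
  have hone : ∀ i ∈ J, Cl X (2 ^ bd r) r fun y => ax V (O y) i.1 := by
    intro i hi
    obtain ⟨⟨j, x⟩, hjx⟩ := i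
    have h1 : scl (lx V) (j, x) ≤ r := (Finset.mem_filter.1 hi).2
    have h2 : x.length + j + (x.length ^ (V j).c + (V j).c) + 20 ≤ r := h1
    have h3 := (V j).bound x.length
    have ht : (V j).M.time x.length + 1 ≤ bd r := by
      have e1 : (V j).M.time x.length < 2 ^ (Nat.log 2 ((V j).M.time x.length) + 1) :=
        Nat.lt_pow_succ_log_self (by norm_num) _
      have e2 : Nat.log 2 ((V j).M.time x.length) + 1 ≤ r := by omega
      have e3 : 2 ^ (Nat.log 2 ((V j).M.time x.length) + 1) ≤ 2 ^ r :=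
        Nat.pow_le_pow_right (by norm_num) e2
      omega
    have h4 := hLCL X (2 ^ bd r) ((V j).M.time x.length) ((V j).M.alt x.length)
      ((V j).M.tree x) O hS (Nat.pow_le_pow_right (by norm_num) ht) hO
      (fun ws hl hws => ⟨(V j).M.depth_le x ws hl hws, (V j).M.short x ws hl hws⟩)
    exact mono _ _ _ (by omega) h4
  have h5 := hCNJ X (Option {a // a ∈ E}) (2 ^ bd r) r (Finset.insertNone J)
    (fun i y => i.elim (decide (C y)) fun i => ax V (O y) i.1) (fun i => i.elim true κ) hS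
    (by rw [Finset.card_insertNone]; exact hJc) (fun i hi => by
      cases i with
      | none => exact hC
      | some i => exact hone i (Finset.some_mem_insertNone.1 hi))
  refine Eq.mpr (congrArg (Cl _ _ _) (funext fun y => decide_eq_decide.2 ?_)) h5
  constructor
  · rintro ⟨h, hc⟩ i hi
    cases i with
    | none => exact decide_eq_true hc
    | some i => exact h i (Finset.mem_filter.1 (Finset.some_mem_insertNone.1 hi)).2
  · intro h
    refine ⟨fun i hi => ?_, ?_⟩
    · exact h (some i) (Finset.some_mem_insertNone.2 (Finset.mem_filter.2 ⟨Finset.mem_univ _, hi⟩))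
    · exact of_decide_eq_true (h none (Finset.none_mem_insertNone))

end Pool.Agent.H78.XZ.CLP
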