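import Pool.Agent.H18.XZ.TE

/-!
# The exponential hierarchy in EQP: row DYA (the value is a multiple of `2 ^ (-μ)`)
-/

set_option autoImplicit false

namespace Pool.Agent.H78.XZ.DYA

open Pool.Agent.H66.IQ
open Pool.Agent.H18.XZ (coins)

theorem pf_DYA : Pool.Agent.H18.XZ.T_DYA := by
  classical
  intro k μ G hG O
  induction G generalizing μ with
  | test T =>
    by_cases h : T.eval O = true
    · exact ⟨2 ^ μ, by simp [Prot.val, h]⟩
    · exact ⟨0, by simp [Prot.val, h]⟩
  | coin l r hl hr =>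
    have h1 : max (coins l) (coins r) + 1 ≤ μ := hG
    obtain ⟨ν, rfl⟩ : ∃ ν, μ = ν + 1 := ⟨μ - 1, by omega⟩
    obtain ⟨a, ha⟩ := hl ν (by omega)
    obtain ⟨b, hb⟩ := hr ν (by omega)
    refine ⟨a + b, ?_⟩
    have h2 : (Prot.coin l r).val O = (l.val O + r.val O) / 2 := rfl
    rw [h2, Nat.cast_add, ← ha, ← hb, pow_succ]
    ring
  | say l r hl hr =>
    have h1 : max (coins l) (coins r) ≤ μ := hG
    obtain ⟨a, ha⟩ := hl μ (by omega)
    obtain ⟨b, hb⟩ := hr μ (by omega)
    have h2 : (Prot.say l r).val O = max (l.val O) (r.val O) := rfl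
    rw [h2]
    rcases max_choice (l.val O) (r.val O) with h | h
    · exact ⟨a, by rw [h, ha]⟩
    · exact ⟨b, by rw [h, hb]⟩

end Pool.Agent.H78.XZ.DYA
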